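import Mathlib

/-!
The open-point game of Berner and Juhasz on a countable Hausdorff space.

In every inning the first player chooses a nonempty open set and the second player chooses a
point of it. The first player wins when the set of the chosen points is dense.
The theorem `result` gives, in ZFC, a nonempty countable Hausdorff space on which neither player
has a winning strategy.
-/

namespace Pool.Agent.Results.MP_f38362_gt.OpenPointUndetermined

open Set Topology Cardinal

universe u

/-- The first `n` moves of the sequence `p`, latest move first. -/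
def hist {α : Type u} (p : ℕ → α) : ℕ → List α
  | 0 => []
  | n + 1 => p n :: hist p n

/-- `σ` is a winning strategy for the player who chooses open sets: `σ h` is the open set chosen
after the points in the list `h` (latest first) have been chosen by the other player. -/
def IsWinningOpen (X : Type u) [TopologicalSpace X] (σ : List X → Set X) : Prop :=
  (∀ h, IsOpen (σ h) ∧ (σ h).Nonempty) ∧
    ∀ x : ℕ → X, (∀ n, x n ∈ σ (hist x n)) → Dense (range x)

/-- `τ` is a winning strategy for the player who chooses points: `τ (V :: h)` is the point chosen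
in the open set `V` after the open sets in the list `h` (latest first) have been played before. -/
def IsWinningPoint (X : Type u) [TopologicalSpace X] (τ : List (Set X) → X) : Prop :=
  (∀ (V : Set X) (h : List (Set X)), IsOpen V → V.Nonempty → τ (V :: h) ∈ V) ∧
    ∀ V : ℕ → Set X, (∀ n, IsOpen (V n) ∧ (V n).Nonempty) →
      ¬ Dense (range fun n => τ (hist V (n + 1)))

/-- The open-point game on `X` is undetermined: neither player has a winning strategy. -/
def Undetermined (X : Type u) [TopologicalSpace X] : Prop :=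
  (¬ ∃ σ : List X → Set X, IsWinningOpen X σ) ∧
    ¬ ∃ τ : List (Set X) → X, IsWinningPoint X τ

/-! A set of reals avoiding many countable sets, by transfinite recursion. -/

theorem exists_rec {W Y : Type} [LinearOrder W] [WellFoundedLT W] [Nonempty Y]
    (P : W → (W → Y) → Y → Prop)
    (hcongr : ∀ α f g y, (∀ β < α, f β = g β) → P α f y → P α g y)
    (hex : ∀ α f, ∃ y, P α f y) : ∃ f : W → Y, ∀ α, P α f (f α) := by
  classical
  let y0 : Y := Classical.arbitrary Y
  let F : W → Y := (wellFounded_lt (α := W)).fix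
    (fun α ih => Classical.choose (hex α (fun β => if h : β < α then ih β h else y0)))
  refine ⟨F, fun α => ?_⟩
  have h1 : F α = Classical.choose (hex α (fun β => if β < α then F β else y0)) := by
    have := (wellFounded_lt (α := W)).fix_eq
      (fun α ih => Classical.choose (hex α (fun β => if h : β < α then ih β h else y0))) α
    simp only [F]
    rw [this]
  have h2 := Classical.choose_spec (hex α (fun β => if β < α then F β else y0))
  rw [← h1] at h2
  refine hcongr α _ F _ (fun β hβ => ?_) h2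
  simp [hβ]

theorem exists_set {I : Type} [Nonempty I] (hI : #I ≤ 𝔠) (C : I → (ℕ → Bool) → Set (ℕ → Bool))
    (hC : ∀ i e, (C i e).Countable) :
    ∃ A : Set (ℕ → Bool), ¬ A.Countable ∧
      ∀ i, (∀ e e', e ≠ e' → Disjoint (C i e ∩ A) (C i e' ∩ A)) → ∃ e, Disjoint (C i e) A := by
  classical
  have hX : #(ℕ → Bool) = 𝔠 := by simp
  let W := (#(ℕ → Bool)).ord.ToType
  have hW : #W = 𝔠 := by rw [← hX]; exact mk_ord_toType _
  have hIW : #I ≤ #W := by rw [hW]; exact hI
  obtain ⟨emb⟩ : Nonempty (I ↪ W) := hIW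
  let g : W → I := Function.invFun emb
  have hg : Function.Surjective g := Function.invFun_surjective emb.injective
  have hsmall : ∀ α : W, #(Iio α) < 𝔠 := by
    intro α
    exact (mk_Iio_lt α (by simp [W])).trans_eq hW
  let prev : W → (W → (ℕ → Bool) × (ℕ → Bool)) → Set (ℕ → Bool) := fun α f =>
    (fun β => (f β).2) '' Iio α
  have hprev : ∀ α f, #(prev α f) < 𝔠 := fun α f => mk_image_le.trans_lt (hsmall α)
  let bad : W → (W → (ℕ → Bool) × (ℕ → Bool)) → (ℕ → Bool) → Set (ℕ → Bool) := fun α f e =>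
    prev α f ∪ ((⋃ β : Iio α, C (g β) (f β).1) ∪ C (g α) e)
  have hbad : ∀ α f e, #(bad α f e) < 𝔠 := by
    intro α f e
    refine (mk_union_le _ _).trans_lt (add_lt_of_lt aleph0_le_continuum (hprev α f) ?_)
    refine (mk_union_le _ _).trans_lt (add_lt_of_lt aleph0_le_continuum ?_ ?_)
    · refine (mk_iUnion_le _).trans_lt (mul_lt_of_lt aleph0_le_continuum (hsmall α) ?_)
      refine lt_of_le_of_lt (ciSup_le' fun β => ?_) aleph0_lt_continuum
      exact (hC _ _).le_aleph0
    · exact ((hC _ _).le_aleph0).trans_lt aleph0_lt_continuum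
  obtain ⟨f, hf⟩ := exists_rec
    (fun (α : W) (f : W → (ℕ → Bool) × (ℕ → Bool)) (y : (ℕ → Bool) × (ℕ → Bool)) =>
      ((∃ e, Disjoint (C (g α) e) (prev α f)) → Disjoint (C (g α) y.1) (prev α f)) ∧
        y.2 ∉ bad α f y.1)
    (by
      intro α f h y hfh hy
      have h1 : prev α f = prev α h := by
        apply image_congr
        intro β hβ
        simp only [hfh β hβ]
      have h2 : (⋃ β : Iio α, C (g β) (f β).1) = ⋃ β : Iio α, C (g β) (h β).1 := by
        apply iUnion_congr
        rintro ⟨β, hβ⟩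
        simp only [hfh β hβ]
      simp only [bad, h1, h2] at hy ⊢
      exact hy)
    (by
      intro α f
      have h1 : ∃ e, (∃ e, Disjoint (C (g α) e) (prev α f)) → Disjoint (C (g α) e) (prev α f) := by
        by_cases h : ∃ e, Disjoint (C (g α) e) (prev α f)
        · obtain ⟨e, he⟩ := h
          exact ⟨e, fun _ => he⟩
        · exact ⟨fun _ => false, fun h' => absurd h' h⟩
      obtain ⟨e, he⟩ := h1
      have h2 : ∃ x, x ∉ bad α f e := by
        by_contra hcon
        push Not at hcon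
        have h3 : bad α f e = Set.univ := eq_univ_of_forall hcon
        have h4 := hbad α f e
        rw [h3, mk_univ, hX] at h4
        exact lt_irrefl _ h4
      obtain ⟨x, hx⟩ := h2
      exact ⟨(e, x), he, hx⟩)
  have hinj : Function.Injective fun α => (f α).2 := by
    have key : ∀ α β, β < α → (f α).2 ≠ (f β).2 := by
      intro α β hβ h
      exact (hf α).2 (Or.inl ⟨β, hβ, h.symm⟩)
    intro α β h
    rcases lt_trichotomy α β with h1 | h1 | h1
    · exact absurd h.symm (key β α h1)
    · exact h1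
    · exact absurd h (key α β h1)
  refine ⟨range fun α => (f α).2, ?_, ?_⟩
  · intro hcount
    have h1 := hcount.le_aleph0
    rw [mk_range_eq _ hinj, hW] at h1
    exact absurd h1 (not_le.mpr aleph0_lt_continuum)
  · intro i hi
    obtain ⟨α, rfl⟩ := hg i
    have h1 : ∃ e, Disjoint (C (g α) e) (prev α f) := by
      by_contra hcon
      push Not at hcon
      have h2 : ∀ e, ∃ x, x ∈ C (g α) e ∧ x ∈ prev α f := fun e => not_disjoint_iff.mp (hcon e)
      choose φ hφ1 hφ2 using h2
      have hsub : prev α f ⊆ range fun α => (f α).2 := by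
        rintro x ⟨β, _, rfl⟩
        exact ⟨β, rfl⟩
      have hφinj : Function.Injective φ := by
        intro e e' hee
        by_contra hne
        exact (disjoint_left.mp (hi e e' hne)) ⟨hφ1 e, hsub (hφ2 e)⟩
          ⟨hee ▸ hφ1 e', hsub (hφ2 e)⟩
      have h3 : #(ℕ → Bool) ≤ #(prev α f) :=
        mk_le_of_injective (f := fun e => (⟨φ e, hφ2 e⟩ : prev α f))
          fun e e' h => hφinj (Subtype.ext_iff.mp h)
      rw [hX] at h3
      exact absurd (hprev α f) (not_lt.mpr h3)
    refine ⟨(f α).1, ?_⟩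
    have h2 := (hf α).1 h1
    rw [disjoint_left]
    rintro x hx ⟨β, rfl⟩
    rcases lt_or_ge β α with h3 | h3
    · exact disjoint_left.mp h2 hx ⟨β, h3, rfl⟩
    · rcases h3.eq_or_lt with h4 | h4
      · subst h4
        exact (hf α).2 (Or.inr (Or.inr hx))
      · exact (hf β).2 (Or.inr (Or.inl (mem_iUnion.mpr ⟨⟨α, h4⟩, hx⟩)))

theorem hist_length {α : Type u} (p : ℕ → α) (n : ℕ) : (hist p n).length = n := by
  induction n with
  | zero => rfl
  | succ n ih => simp [hist, ih]

theorem hist_suffix {α : Type u} (p : ℕ → α) {n m : ℕ} (h : n ≤ m) : hist p n <:+ hist p m := by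
  induction m, h using Nat.le_induction with
  | base => exact List.suffix_refl _
  | succ m _ ih => exact ih.trans (List.suffix_cons _ _)

/-- The nodes on the branch `x`. -/
def br (x : ℕ → Bool) : Set (List Bool) := range (hist x)

theorem mem_br {x : ℕ → Bool} {u : List Bool} : u ∈ br x ↔ hist x u.length = u := by
  constructor
  · rintro ⟨n, rfl⟩; rw [hist_length]
  · intro h; exact ⟨_, h⟩

theorem br_suffix {x : ℕ → Bool} {u v : List Bool} (hv : v ∈ br x) (h : u <:+ v) : u ∈ br x := by
  obtain ⟨n, rfl⟩ := hv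
  induction n with
  | zero =>
    have : u = [] := by simpa [hist] using h
    exact ⟨0, by simp [hist, this]⟩
  | succ n ih =>
    rcases List.suffix_cons_iff.mp h with h1 | h1
    · exact ⟨n + 1, h1.symm⟩
    · exact ih h1

theorem br_comparable {x : ℕ → Bool} {u v : List Bool} (hu : u ∈ br x) (hv : v ∈ br x)
    (h : u.length ≤ v.length) : u <:+ v := by
  rw [mem_br] at hu hv
  rw [← hu, ← hv]
  exact hist_suffix x h

/-- Two different branches separate. -/
theorem br_sep {x y : ℕ → Bool} (h : x ≠ y) : ∃ n, ∀ m, n ≤ m → hist x m ∉ br y := by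
  obtain ⟨i, hi⟩ := Function.ne_iff.mp h
  refine ⟨i + 1, fun m hm hmem => ?_⟩
  rw [mem_br, hist_length] at hmem
  have key : ∀ m, hist y m = hist x m → ∀ j < m, y j = x j := by
    intro m
    induction m with
    | zero => intro _ j hj; omega
    | succ m ih =>
      intro hm j hj
      simp only [hist, List.cons.injEq] at hm
      rcases Nat.lt_succ_iff_lt_or_eq.mp hj with h1 | h1
      · exact ih hm.2 j h1
      · subst h1; exact hm.1
  exact hi (key m hmem i (by omega)).symm

theorem br_sep_finset {x : ℕ → Bool} (E : Finset (ℕ → Bool)) (hx : x ∉ E) :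
    ∃ n, ∀ m, n ≤ m → ∀ y ∈ E, hist x m ∉ br y := by
  classical
  induction E using Finset.induction_on with
  | empty => exact ⟨0, fun m _ y hy => absurd hy (Finset.notMem_empty y)⟩
  | insert a E ha ih =>
    rw [Finset.mem_insert, not_or] at hx
    obtain ⟨n1, h1⟩ := ih hx.2
    obtain ⟨n2, h2⟩ := br_sep hx.1
    refine ⟨max n1 n2, fun m hm y hy => ?_⟩
    rcases Finset.mem_insert.mp hy with rfl | hy
    · exact h2 m ((le_max_right _ _).trans hm)
    · exact h1 m ((le_max_left _ _).trans hm) y hy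

/-- Rational intervals. -/
abbrev Reg : Type := {m : ℚ × ℚ // m.1 < m.2}

/-- The underlying set of the example. -/
abbrev Pt : Type := ℚ × List Bool

noncomputable def loc (p : Pt) : ℝ := p.1 + (Encodable.encode p.2 : ℝ) * √2

theorem loc_injective : Function.Injective loc := by
  rintro ⟨q, u⟩ ⟨r, v⟩ h
  simp only [loc] at h
  have h1 : Encodable.encode u = Encodable.encode v := by
    by_contra hne
    have h2 : ((Encodable.encode u : ℤ) - (Encodable.encode v : ℤ)) ≠ 0 := by
      intro h3; apply hne; omega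
    have h3 : Irrational (((((Encodable.encode u : ℤ) - (Encodable.encode v : ℤ) : ℤ)) : ℝ) * √2) :=
      irrational_sqrt_two.intCast_mul h2
    apply h3
    refine ⟨r - q, ?_⟩
    push_cast
    linarith
  have h2 : u = v := Encodable.encode_injective h1
  subst h2
  have h3 : (q : ℝ) = r := by linarith
  have h4 : q = r := by exact_mod_cast h3
  rw [h4]

/-- The basic open sets. -/
def Basic (A : Set (ℕ → Bool)) (m : Reg) (k : ℕ) (E : Finset (ℕ → Bool)) : Set Pt :=
  {p | (m.1.1 : ℝ) < loc p ∧ loc p < m.1.2 ∧ k ≤ p.2.length ∧ ∀ x ∈ E, x ∈ A → p.2 ∉ br x}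

theorem exists_loc (m : Reg) (u : List Bool) : ∃ q : ℚ, (m.1.1 : ℝ) < loc (q, u) ∧
    loc (q, u) < m.1.2 := by
  have h : (m.1.1 : ℝ) - (Encodable.encode u : ℝ) * √2 < m.1.2 - (Encodable.encode u : ℝ) * √2 := by
    have : (m.1.1 : ℝ) < m.1.2 := by exact_mod_cast m.2
    linarith
  obtain ⟨q, h1, h2⟩ := exists_rat_btwn h
  exact ⟨q, by simp only [loc]; linarith, by simp only [loc]; linarith⟩

theorem exists_reg (x : ℝ) (O : Set ℝ) (hO : IsOpen O) (hx : x ∈ O) :
    ∃ m : Reg, (m.1.1 : ℝ) < x ∧ x < m.1.2 ∧ Ioo (m.1.1 : ℝ) m.1.2 ⊆ O := by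
  obtain ⟨s, hs, hxs, hsO⟩ := Real.isTopologicalBasis_Ioo_rat.exists_subset_of_mem_open hx hO
  simp only [mem_iUnion, mem_singleton_iff] at hs
  obtain ⟨a, b, hab, rfl⟩ := hs
  exact ⟨⟨(a, b), hab⟩, hxs.1, hxs.2, hsO⟩

theorem basic_nonempty (A : Set (ℕ → Bool)) (m : Reg) (k : ℕ) (E : Finset (ℕ → Bool))
    (x : ℕ → Bool) (hx : x ∉ E) : ∃ p ∈ Basic A m k E, p.2 ∈ br x := by
  obtain ⟨n, hn⟩ := br_sep_finset E hx
  obtain ⟨q, h1, h2⟩ := exists_loc m (hist x (max n k))
  refine ⟨(q, hist x (max n k)), ⟨h1, h2, ?_, fun y hy _ => hn _ (le_max_left _ _) y hy⟩,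
    ⟨_, rfl⟩⟩
  simp only [hist_length]
  exact le_max_right _ _

theorem exists_notMem (E : Finset (ℕ → Bool)) : ∃ x, x ∉ E := Infinite.exists_notMem_finset E

/-- The topology generated by the basic sets. -/
@[instance_reducible]
def topA (A : Set (ℕ → Bool)) : TopologicalSpace Pt where
  IsOpen U := ∀ p ∈ U, ∃ m k E, p ∈ Basic A m k E ∧ Basic A m k E ⊆ U
  isOpen_univ := by
    intro p _
    obtain ⟨m, h1, h2, -⟩ := exists_reg (loc p) univ isOpen_univ (mem_univ _)
    exact ⟨m, 0, ∅, ⟨h1, h2, Nat.zero_le _, by simp⟩, subset_univ _⟩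
  isOpen_inter := by
    classical
    rintro U V hU hV p ⟨hpU, hpV⟩
    obtain ⟨m1, k1, E1, hp1, hs1⟩ := hU p hpU
    obtain ⟨m2, k2, E2, hp2, hs2⟩ := hV p hpV
    obtain ⟨m, h1, h2, h3⟩ := exists_reg (loc p) (Ioo (m1.1.1 : ℝ) m1.1.2 ∩ Ioo (m2.1.1 : ℝ) m2.1.2)
      (isOpen_Ioo.inter isOpen_Ioo) ⟨⟨hp1.1, hp1.2.1⟩, ⟨hp2.1, hp2.2.1⟩⟩
    refine ⟨m, max k1 k2, E1 ∪ E2, ⟨h1, h2, max_le hp1.2.2.1 hp2.2.2.1, ?_⟩, ?_⟩
    · intro x hx hxA
      rcases Finset.mem_union.mp hx with hx | hx
      · exact hp1.2.2.2 x hx hxA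
      · exact hp2.2.2.2 x hx hxA
    · intro r hr
      have h4 := h3 ⟨hr.1, hr.2.1⟩
      refine ⟨hs1 ⟨h4.1.1, h4.1.2, (le_max_left _ _).trans hr.2.2.1, fun x hx =>
        hr.2.2.2 x (Finset.mem_union_left _ hx)⟩, hs2 ⟨h4.2.1, h4.2.2,
        (le_max_right _ _).trans hr.2.2.1, fun x hx =>
        hr.2.2.2 x (Finset.mem_union_right _ hx)⟩⟩
  isOpen_sUnion := by
    rintro S hS p ⟨U, hUS, hpU⟩
    obtain ⟨m, k, E, h1, h2⟩ := hS U hUS p hpU
    exact ⟨m, k, E, h1, h2.trans (subset_sUnion_of_mem hUS)⟩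

theorem isOpen_basic (A : Set (ℕ → Bool)) (m : Reg) (k : ℕ) (E : Finset (ℕ → Bool)) :
    IsOpen[topA A] (Basic A m k E) := fun _ hp => ⟨m, k, E, hp, subset_rfl⟩

theorem t2_topA (A : Set (ℕ → Bool)) : @T2Space Pt (topA A) := by
  let _ := topA A
  refine ⟨fun p r hpr => ?_⟩
  obtain ⟨O1, O2, hO1, hO2, h1, h2, hd⟩ := t2_separation (loc_injective.ne hpr)
  obtain ⟨m1, a1, b1, c1⟩ := exists_reg _ O1 hO1 h1
  obtain ⟨m2, a2, b2, c2⟩ := exists_reg _ O2 hO2 h2
  refine ⟨Basic A m1 0 ∅, Basic A m2 0 ∅, isOpen_basic A _ _ _, isOpen_basic A _ _ _,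
    ⟨a1, b1, Nat.zero_le _, by simp⟩, ⟨a2, b2, Nat.zero_le _, by simp⟩, ?_⟩
  rw [disjoint_left]
  intro s hs1 hs2
  exact disjoint_left.mp hd (c1 ⟨hs1.1, hs1.2.1⟩) (c2 ⟨hs2.1, hs2.2.1⟩)

theorem not_open (A : Set (ℕ → Bool)) (hA : ¬ A.Countable) :
    ¬ ∃ σ : List Pt → Set Pt, @IsWinningOpen Pt (topA A) σ := by
  classical
  rintro ⟨σ, hσ1, hσ2⟩
  have h1 : ∀ h : List Pt, ∃ m k E, Basic A m k E ⊆ σ h := by
    intro h
    obtain ⟨hop, p, hp⟩ := hσ1 h
    obtain ⟨m, k, E, _, hs⟩ := hop p hp
    exact ⟨m, k, E, hs⟩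
  choose m k E hs using h1
  have hcount : (⋃ h : List Pt, (E h : Set (ℕ → Bool))).Countable :=
    countable_iUnion fun h => (E h).countable_toSet
  obtain ⟨x, hxA, hx⟩ : ∃ x ∈ A, x ∉ ⋃ h : List Pt, (E h : Set (ℕ → Bool)) := by
    by_contra hcon
    push Not at hcon
    exact hA (hcount.mono hcon)
  have h2 : ∀ h : List Pt, ∃ p ∈ Basic A (m h) (k h) (E h), p.2 ∈ br x := fun h =>
    basic_nonempty A _ _ _ x fun hxE => hx (mem_iUnion.mpr ⟨h, hxE⟩)
  choose pt hpt1 hpt2 using h2
  let H : ℕ → List Pt := fun n => Nat.rec [] (fun _ h => pt h :: h) n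
  let p : ℕ → Pt := fun n => pt (H n)
  have hH : ∀ n, hist p n = H n := by
    intro n
    induction n with
    | zero => rfl
    | succ n ih => simp only [hist, ih]; rfl
  have hd := hσ2 p (fun n => by rw [hH]; exact hs _ (hpt1 _))
  let _ := topA A
  have m0 : Reg := ⟨(0, 1), by norm_num⟩
  have hne : (Basic A m0 0 {x}).Nonempty := by
    obtain ⟨y, hy⟩ := exists_notMem {x}
    obtain ⟨p, hp, _⟩ := basic_nonempty A m0 0 {x} y hy
    exact ⟨p, hp⟩
  obtain ⟨_, hr1, ⟨n, rfl⟩⟩ := hd.inter_open_nonempty _ (isOpen_basic A m0 0 {x}) hne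
  exact hr1.2.2.2 x (Finset.mem_singleton_self x) hxA (hpt2 _)

theorem br_inter_finite {x y : ℕ → Bool} (h : x ≠ y) : (br x ∩ br y).Finite := by
  obtain ⟨n, hn⟩ := br_sep h
  refine ((Set.finite_lt_nat n).image (hist x)).subset ?_
  rintro u ⟨hx, hy⟩
  rw [mem_br] at hx
  refine ⟨u.length, ?_, hx⟩
  by_contra hcon
  apply hn u.length (not_lt.mp hcon)
  rw [hx]
  exact hy

theorem br_length_finite (x : ℕ → Bool) (n : ℕ) : {v | v ∈ br x ∧ v.length < n}.Finite := by
  refine ((Set.finite_lt_nat n).image (hist x)).subset ?_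
  rintro u ⟨hx, hy⟩
  rw [mem_br] at hx
  exact ⟨u.length, hy, hx⟩

theorem hist_eq_of {α : Type} (d : α) (v : List α) (y : ℕ → α)
    (h : ∀ i < v.length, y i = v.reverse.getD i d) : hist y v.length = v := by
  induction v with
  | nil => rfl
  | cons a w ih =>
    simp only [List.length_cons, hist, List.cons.injEq]
    constructor
    · rw [h w.length (by simp), List.reverse_cons, List.getD_append_right _ _ _ _ (by simp)]
      simp
    · apply ih
      intro i hi
      rw [h i (by simp; omega), List.reverse_cons, List.getD_append _ _ _ _ (by simpa using hi)]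

theorem suffix_getD {α : Type} (d : α) {a b : List α} (h : a <:+ b) (i : ℕ) (hi : i < a.length) :
    a.reverse.getD i d = b.reverse.getD i d := by
  obtain ⟨c, rfl⟩ := h
  rw [List.reverse_append, List.getD_append _ _ _ _ (by simpa using hi)]

/-- A set of pairwise comparable nodes of unbounded length lies on a branch. -/
theorem exists_branch (S : Set (List Bool)) (hc : ∀ v ∈ S, ∀ w ∈ S, v <:+ w ∨ w <:+ v)
    (hu : ∀ n, ∃ v ∈ S, n < v.length) : ∃ y, S ⊆ br y := by
  choose f hf1 hf2 using hu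
  refine ⟨fun n => (f n).reverse.getD n false, fun v hv => ?_⟩
  rw [mem_br]
  apply hist_eq_of false
  intro i hi
  rcases hc v hv (f i) (hf1 i) with h | h
  · exact (suffix_getD false h i hi).symm
  · exact suffix_getD false h i (hf2 i)

/-- A chain of positions of unbounded length comes from an infinite play. -/
theorem exists_play {α : Type} (T : ℕ → List α) (d : α) (h1 : ∀ n, T n <:+ T (n + 1))
    (h2 : ∀ n, n ≤ (T n).length) : ∃ z : ℕ → α, ∀ n, hist z (T n).length = T n := by
  have h3 : ∀ n m, n ≤ m → T n <:+ T m := by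
    intro n m hnm
    induction m, hnm using Nat.le_induction with
    | base => exact List.suffix_refl _
    | succ m _ ih => exact ih.trans (h1 m)
  refine ⟨fun n => (T (n + 1)).reverse.getD n d, fun n => ?_⟩
  apply hist_eq_of d
  intro i hi
  rcases le_total n (i + 1) with h | h
  · exact (suffix_getD d (h3 _ _ h) i hi).symm
  · exact suffix_getD d (h3 _ _ h) i (h2 (i + 1))

/-! Positions of the player who chooses open sets. -/

abbrev Mv : Type := Reg × Finset (ℕ → Bool)

open Classical in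
/-- All the branches excluded so far. -/
noncomputable def supp : List Mv → Finset (ℕ → Bool)
  | [] => ∅
  | mv :: h => mv.2 ∪ supp h

theorem supp_suffix {h h' : List Mv} (hs : h <:+ h') : supp h ⊆ supp h' := by
  classical
  obtain ⟨c, rfl⟩ := hs
  induction c with
  | nil => exact subset_rfl
  | cons a c ih =>
    simp only [List.cons_append, supp]
    exact ih.trans Finset.subset_union_right

/-- The open set played at the end of the position `h`. -/
noncomputable def opn (A : Set (ℕ → Bool)) : List Mv → Set Pt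
  | [] => univ
  | mv :: h => Basic A mv.1 (h.length + 1) (supp (mv :: h))

/-- The list of the open sets played. -/
noncomputable def opns (A : Set (ℕ → Bool)) : List Mv → List (Set Pt)
  | [] => []
  | mv :: h => opn A (mv :: h) :: opns A h

/-- The last point picked. -/
noncomputable def pk (A : Set (ℕ → Bool)) (τ : List (Set Pt) → Pt) (h : List Mv) : Pt :=
  τ (opns A h)

/-- The point lies over the interval. -/
def InReg (m : Reg) (p : Pt) : Prop := (m.1.1 : ℝ) < loc p ∧ loc p < m.1.2

section Scheme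

variable (A : Set (ℕ → Bool)) (τ : List (Set Pt) → Pt)

/-- Picks over `m` made in the position `t`. -/
def Picks (t : List Mv) (m : Reg) : Set (List Bool) :=
  {v | ∃ h, h ≠ [] ∧ h <:+ t ∧ InReg m (pk A τ h) ∧ (pk A τ h).2 = v}

/-- `h` is a proper extension of `t`, with a pick over `m` above `u`. -/
def Later (t : List Mv) (m : Reg) (u : List Bool) (h : List Mv) : Prop :=
  t <:+ h ∧ t.length < h.length ∧ InReg m (pk A τ h) ∧ u <:+ (pk A τ h).2

def Req (j : (Reg × List Bool) × (Reg × List Bool)) (t t' : List Mv) : Prop :=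
  (∃ v ∈ Picks A τ t j.1.1, ∃ v' ∈ Picks A τ t' j.2.1,
    j.1.2 <:+ v ∧ j.2.2 <:+ v' ∧ ¬ v <:+ v' ∧ ¬ v' <:+ v) ∨
  (∀ h, ¬ Later A τ t j.1.1 j.1.2 h) ∨
  (∀ h, ¬ Later A τ t' j.2.1 j.2.2 h) ∨
  (∃ y, y ∉ A ∧ ∀ h, Later A τ t j.1.1 j.1.2 h → (pk A τ h).2 ∈ br y)

variable {A τ}

theorem Picks.mono {t t₁ : List Mv} {m : Reg} (h : t <:+ t₁) : Picks A τ t m ⊆ Picks A τ t₁ m := by
  rintro v ⟨k, h0, h1, h2, h3⟩
  exact ⟨k, h0, h1.trans h, h2, h3⟩

theorem Later.mono {t t₁ h : List Mv} {m : Reg} {u : List Bool} (hs : t <:+ t₁)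
    (hl : Later A τ t₁ m u h) : Later A τ t m u h :=
  ⟨hs.trans hl.1, hs.length_le.trans_lt hl.2.1, hl.2.2⟩

theorem Req.mono {j : (Reg × List Bool) × (Reg × List Bool)} {t t' t₁ t₁' : List Mv}
    (h : t <:+ t₁) (h' : t' <:+ t₁') (hr : Req A τ j t t') : Req A τ j t₁ t₁' := by
  rcases hr with ⟨v, hv, v', hv', hr⟩ | hr | hr | ⟨y, hy, hr⟩
  · exact Or.inl ⟨v, Picks.mono h hv, v', Picks.mono h' hv', hr⟩
  · exact Or.inr (Or.inl fun k hk => hr k (hk.mono h))
  · exact Or.inr (Or.inr (Or.inl fun k hk => hr k (hk.mono h')))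
  · exact Or.inr (Or.inr (Or.inr ⟨y, hy, fun k hk => hr k (hk.mono h)⟩))

theorem isOpen_opn (h : List Mv) (hne : h ≠ []) : IsOpen[topA A] (opn A h) := by
  cases h with
  | nil => exact absurd rfl hne
  | cons mv h => exact isOpen_basic A _ _ _

theorem opn_nonempty (h : List Mv) (hne : h ≠ []) : (opn A h).Nonempty := by
  cases h with
  | nil => exact absurd rfl hne
  | cons mv h =>
    obtain ⟨y, hy⟩ := exists_notMem (supp (mv :: h))
    obtain ⟨p, hp, _⟩ := basic_nonempty A mv.1 (h.length + 1) (supp (mv :: h)) y hy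
    exact ⟨p, hp⟩

variable (hτ : ∀ (V : Set Pt) (h : List (Set Pt)), IsOpen[topA A] V → V.Nonempty → τ (V :: h) ∈ V)

include hτ

theorem pk_mem (h : List Mv) (hne : h ≠ []) : pk A τ h ∈ opn A h := by
  cases h with
  | nil => exact absurd rfl hne
  | cons mv h => exact hτ _ _ (isOpen_opn _ hne) (opn_nonempty _ hne)

theorem pk_cons (mv : Mv) (h : List Mv) : InReg mv.1 (pk A τ (mv :: h)) := by
  have := pk_mem hτ (mv :: h) (by simp)
  exact ⟨this.1, this.2.1⟩

theorem pk_length (h : List Mv) (hne : h ≠ []) : h.length ≤ (pk A τ h).2.length := by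
  cases h with
  | nil => exact absurd rfl hne
  | cons mv h => exact (pk_mem hτ (mv :: h) hne).2.2.1

theorem pk_notMem (h : List Mv) (hne : h ≠ []) (x : ℕ → Bool) (hx : x ∈ supp h) (hxA : x ∈ A) :
    (pk A τ h).2 ∉ br x := by
  cases h with
  | nil => exact absurd rfl hne
  | cons mv h => exact (pk_mem hτ (mv :: h) hne).2.2.2 x hx hxA

theorem exists_ext (t : List Mv) (n : ℕ) : ∃ t₁, t <:+ t₁ ∧ n ≤ t₁.length := by
  have m0 : Reg := ⟨(0, 1), by norm_num⟩
  refine ⟨List.replicate n (m0, ∅) ++ t, List.suffix_append _ _, ?_⟩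
  simp

/-- The requirements can be met by extending the two positions. -/
theorem req_dense (j : (Reg × List Bool) × (Reg × List Bool)) (t t' : List Mv) :
    ∃ t₁ t₁', t <:+ t₁ ∧ t' <:+ t₁' ∧ Req A τ j t₁ t₁' := by
  classical
  obtain ⟨⟨m, u⟩, ⟨m', u'⟩⟩ := j
  let S : Set (List Bool) := {v | ∃ h, Later A τ t m u h ∧ (pk A τ h).2 = v}
  by_cases hc : ∀ v ∈ S, ∀ w ∈ S, v <:+ w ∨ w <:+ v
  · by_cases hu : ∀ n, ∃ v ∈ S, n < v.length
    · obtain ⟨y, hy⟩ := exists_branch S hc hu
      by_cases hyA : y ∈ A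
      · have m0 : Reg := ⟨(0, 1), by norm_num⟩
        refine ⟨(m0, {y}) :: t, t', List.suffix_cons _ _, List.suffix_refl _,
          Or.inr (Or.inl fun h hl => ?_)⟩
        have h1 : (pk A τ h).2 ∈ br y := hy ⟨h, hl.mono (List.suffix_cons _ _), rfl⟩
        have hne : h ≠ [] := by
          intro h0
          have := hl.2.1
          simp [h0] at this
        refine pk_notMem hτ h hne y (supp_suffix hl.1 ?_) hyA h1
        simp [supp]
      · exact ⟨t, t', List.suffix_refl _, List.suffix_refl _,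
          Or.inr (Or.inr (Or.inr ⟨y, hyA, fun h hl => hy ⟨h, hl, rfl⟩⟩))⟩
    · push Not at hu
      obtain ⟨n, hn⟩ := hu
      obtain ⟨t₁, h1, h2⟩ := exists_ext hτ t n
      refine ⟨t₁, t', h1, List.suffix_refl _, Or.inr (Or.inl fun h hl => ?_)⟩
      have hne : h ≠ [] := by
        intro h0
        have := hl.2.1
        simp [h0] at this
      have h3 := hn _ ⟨h, hl.mono h1, rfl⟩
      have h4 := pk_length hτ h hne
      have h5 := hl.2.1
      omega
  · push Not at hc
    obtain ⟨v, ⟨h, hl, hv⟩, w, ⟨k, kl, hw⟩, hvw, hwv⟩ := hc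
    obtain ⟨t₁, h1, h2⟩ := exists_ext hτ t' (max v.length w.length)
    by_cases hd : ∀ h, ¬ Later A τ t₁ m' u' h
    · exact ⟨t, t₁, List.suffix_refl _, h1, Or.inr (Or.inr (Or.inl hd))⟩
    · push Not at hd
      obtain ⟨h', hl'⟩ := hd
      have hne : h' ≠ [] := by
        intro h0
        have := hl'.2.1
        simp [h0] at this
      have hlen := pk_length hτ h' hne
      have hlt := hl'.2.1
      have hpick : (pk A τ h').2 ∈ Picks A τ h' m' := ⟨h', hne, List.suffix_refl _, hl'.2.2.1, rfl⟩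
      have hne1 : h ≠ [] := by
        intro h0
        have := hl.2.1
        simp [h0] at this
      have hne2 : k ≠ [] := by
        intro h0
        have := kl.2.1
        simp [h0] at this
      have hv1 : v.length < (pk A τ h').2.length := by
        have := le_max_left v.length w.length
        omega
      have hw1 : w.length < (pk A τ h').2.length := by
        have := le_max_right v.length w.length
        omega
      by_cases hcase : v <:+ (pk A τ h').2
      · have hcase2 : ¬ w <:+ (pk A τ h').2 := by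
          intro hcon
          rcases le_total v.length w.length with h3 | h3
          · exact hvw (List.suffix_of_suffix_length_le hcase hcon h3)
          · exact hwv (List.suffix_of_suffix_length_le hcon hcase h3)
        refine ⟨k, h', kl.1, h1.trans hl'.1, Or.inl ⟨w, ⟨k, hne2, List.suffix_refl _, kl.2.2.1, hw⟩,
          _, hpick, ?_, hl'.2.2.2, hcase2, fun hcon => ?_⟩⟩
        · rw [← hw]; exact kl.2.2.2
        · have := hcon.length_le
          omega
      · refine ⟨h, h', hl.1, h1.trans hl'.1, Or.inl ⟨v, ⟨h, hne1, List.suffix_refl _, hl.2.2.1, hv⟩,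
          _, hpick, ?_, hl'.2.2.2, hcase, fun hcon => ?_⟩⟩
        · rw [← hv]; exact hl.2.2.2
        · have := hcon.length_le
          omega

/-- Finitely many requirements for a family of positions. -/
theorem req_finset (jn : ℕ → (Reg × List Bool) × (Reg × List Bool)) (p : List Bool → List Mv)
    (K : Finset (List Bool × List Bool × ℕ)) :
    ∃ q : List Bool → List Mv, (∀ s, p s <:+ q s) ∧
      ∀ κ ∈ K, κ.1 ≠ κ.2.1 → Req A τ (jn κ.2.2) (q κ.1) (q κ.2.1) := by
  classical
  induction K using Finset.induction_on with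
  | empty => exact ⟨p, fun s => List.suffix_refl _, fun κ hκ => absurd hκ (Finset.notMem_empty κ)⟩
  | insert κ K _ ih =>
    obtain ⟨q, hq1, hq2⟩ := ih
    by_cases hne : κ.1 = κ.2.1
    · refine ⟨q, hq1, fun κ' hκ' hne' => ?_⟩
      rcases Finset.mem_insert.mp hκ' with rfl | hκ'
      · exact absurd hne hne'
      · exact hq2 κ' hκ' hne'
    · obtain ⟨t₁, t₁', h1, h2, h3⟩ := req_dense hτ (jn κ.2.2) (q κ.1) (q κ.2.1)
      let q' : List Bool → List Mv := fun s => if s = κ.1 then t₁ else if s = κ.2.1 then t₁' else q s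
      have hqq : ∀ s, q s <:+ q' s := by
        intro s
        by_cases hs1 : s = κ.1
        · simp only [q', hs1, if_true]; exact h1
        · by_cases hs2 : s = κ.2.1
          · simp only [q', hs2, if_neg (Ne.symm hne), if_true]; exact h2
          · simp only [q', if_neg hs1, if_neg hs2]; exact List.suffix_refl _
      refine ⟨q', fun s => (hq1 s).trans (hqq s), fun κ' hκ' hne' => ?_⟩
      rcases Finset.mem_insert.mp hκ' with rfl | hκ'
      · have e1 : q' κ'.1 = t₁ := by simp only [q', if_true]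
        have e2 : q' κ'.2.1 = t₁' := by simp only [q', if_neg (Ne.symm hne), if_true]
        rw [e1, e2]; exact h3
      · exact (hq2 κ' hκ' hne').mono (hqq _) (hqq _)

end Scheme

section Final

variable {A : Set (ℕ → Bool)} {τ : List (Set Pt) → Pt}

/-- The scheme of positions. -/
theorem exists_scheme
    (hτ : ∀ (V : Set Pt) (h : List (Set Pt)), IsOpen[topA A] V → V.Nonempty → τ (V :: h) ∈ V)
    (jn : ℕ → (Reg × List Bool) × (Reg × List Bool)) (rn : ℕ → Reg) :
    ∃ F : ℕ → List Bool → List Mv,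
      (∀ n s, (rn n, ∅) :: F n s.tail <:+ F (n + 1) s) ∧
      ∀ n s s' j, s.length = n + 1 → s'.length = n + 1 → j ≤ n → s ≠ s' →
        Req A τ (jn j) (F (n + 1) s) (F (n + 1) s') := by
  classical
  let L : ℕ → Finset (List Bool) := fun n => (List.finite_length_eq Bool (n + 1)).toFinset
  have hL : ∀ n s, s ∈ L n ↔ s.length = n + 1 := by
    intro n s
    simp [L]
  let K : ℕ → Finset (List Bool × List Bool × ℕ) := fun n => L n ×ˢ L n ×ˢ Finset.range (n + 1)
  have hstep : ∀ (n : ℕ) (p : List Bool → List Mv), ∃ q : List Bool → List Mv,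
      (∀ s, (rn n, ∅) :: p s.tail <:+ q s) ∧
      ∀ κ ∈ K n, κ.1 ≠ κ.2.1 → Req A τ (jn κ.2.2) (q κ.1) (q κ.2.1) := fun n p =>
    req_finset hτ jn (fun s => (rn n, ∅) :: p s.tail) (K n)
  choose st hst1 hst2 using hstep
  let F : ℕ → List Bool → List Mv := fun n => Nat.rec (fun _ => []) (fun i p => st i p) n
  refine ⟨F, fun n s => hst1 n (F n) s, fun n s s' j h1 h2 h3 h4 => ?_⟩
  refine hst2 n (F n) (s, s', j) ?_ h4
  simp only [K, Finset.mem_product, hL, Finset.mem_range]
  exact ⟨h1, h2, by omega⟩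

/-- Codes for families of outcomes. -/
abbrev Code : Type := Set (List Bool × Reg × List Bool)

/-- The nodes picked over `m` along `e`. -/
def outc (Φ : Code) (e : ℕ → Bool) (m : Reg) : Set (List Bool) := {v | ∃ n, (hist e n, m, v) ∈ Φ}

/-- The isolated limits of the outcomes along `e`. -/
def lim (Φ : Code) (e : ℕ → Bool) : Set (ℕ → Bool) :=
  {x | ∃ (m : Reg) (u : List Bool), u ∈ br x ∧ (outc Φ e m ∩ br x).Infinite ∧
    ∀ v ∈ outc Φ e m, u <:+ v → v ∈ br x}

theorem lim_countable (Φ : Code) (e : ℕ → Bool) : (lim Φ e).Countable := by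
  have h1 : lim Φ e = ⋃ (m : Reg), ⋃ (u : List Bool), {x | u ∈ br x ∧
      (outc Φ e m ∩ br x).Infinite ∧ ∀ v ∈ outc Φ e m, u <:+ v → v ∈ br x} := by
    ext x
    simp only [lim, mem_iUnion, mem_ofPred_eq]
  rw [h1]
  refine countable_iUnion fun m => countable_iUnion fun u => Set.Subsingleton.countable ?_
  rintro x ⟨hx1, hx2, hx3⟩ y ⟨hy1, hy2, hy3⟩
  by_contra hne
  have h2 : (outc Φ e m ∩ br x) ⊆ (br x ∩ br y) ∪ {v | v ∈ br x ∧ v.length < u.length} := by
    rintro v ⟨hv1, hv2⟩
    by_cases hl : v.length < u.length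
    · exact Or.inr ⟨hv2, hl⟩
    · exact Or.inl ⟨hv2, hy3 v hv1 (br_comparable hx1 hv2 (not_lt.mp hl))⟩
  exact hx2 (((br_inter_finite hne).union (br_length_finite x u.length)).subset h2)

theorem opns_hist (z : ℕ → Mv) (n : ℕ) :
    hist (fun i => opn A (hist z (i + 1))) n = opns A (hist z n) := by
  induction n with
  | zero => rfl
  | succ n ih =>
    show opn A (hist z (n + 1)) :: hist (fun i => opn A (hist z (i + 1))) n = _
    rw [ih]
    rfl

theorem not_point (hA : ∀ Φ : Code,
      (∀ e e', e ≠ e' → Disjoint (lim Φ e ∩ A) (lim Φ e' ∩ A)) → ∃ e, Disjoint (lim Φ e) A) :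
    ¬ ∃ τ : List (Set Pt) → Pt, @IsWinningPoint Pt (topA A) τ := by
  classical
  rintro ⟨τ, hτ, hτ2⟩
  have m0 : Reg := ⟨(0, 1), by norm_num⟩
  have _ : Nonempty Reg := ⟨m0⟩
  obtain ⟨jn, hjn⟩ := exists_surjective_nat ((Reg × List Bool) × (Reg × List Bool))
  obtain ⟨rr, hrr⟩ := exists_surjective_nat Reg
  let rn : ℕ → Reg := fun n => rr (Nat.unpair n).1
  have hrn : ∀ m N, ∃ n, N ≤ n ∧ rn n = m := by
    intro m N
    obtain ⟨i, hi⟩ := hrr m
    refine ⟨Nat.pair i N, Nat.right_le_pair i N, ?_⟩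
    simp only [rn, Nat.unpair_pair]
    exact hi
  obtain ⟨F, hF1, hF2⟩ := exists_scheme hτ jn rn
  -- positions along a branch of the scheme
  let T : (ℕ → Bool) → ℕ → List Mv := fun e n => F n (hist e n)
  have hT1 : ∀ e n, (rn n, ∅) :: T e n <:+ T e (n + 1) := fun e n => hF1 n (hist e (n + 1))
  have hT2 : ∀ e n, T e n <:+ T e (n + 1) := fun e n => (List.suffix_cons _ _).trans (hT1 e n)
  have hT3 : ∀ e n m, n ≤ m → T e n <:+ T e m := by
    intro e n m hnm
    induction m, hnm using Nat.le_induction with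
    | base => exact List.suffix_refl _
    | succ m _ ih => exact ih.trans (hT2 e m)
  have hT4 : ∀ e n, n ≤ (T e n).length := by
    intro e n
    induction n with
    | zero => exact Nat.zero_le _
    | succ n ih =>
      have := (hT1 e n).length_le
      simp only [List.length_cons] at this
      omega
  let Φ : Code := {κ | κ.2.2 ∈ Picks A τ (F κ.1.length κ.1) κ.2.1}
  have hout : ∀ e m, outc Φ e m = {v | ∃ n, v ∈ Picks A τ (T e n) m} := by
    intro e m
    ext v
    simp only [outc, Φ, mem_ofPred_eq, hist_length, T]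
  -- infinitely many picks come after a given position
  have hlate : ∀ e m x u n, (outc Φ e m ∩ br x).Infinite → u ∈ br x →
      {v | v ∈ br x ∧ ∃ h, Later A τ (T e n) m u h ∧ (pk A τ h).2 = v}.Infinite := by
    intro e m x u n hinf hu hfin
    apply hinf
    have h1 : {v | ∃ h, h <:+ T e n ∧ (pk A τ h).2 = v}.Finite := by
      have h2 : {h | h <:+ T e n}.Finite := by
        refine (Finset.finite_toSet (T e n).tails.toFinset).subset ?_
        intro h hh
        simpa using hh
      refine (h2.image fun h => (pk A τ h).2).subset ?_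
      rintro v ⟨h, hh, rfl⟩
      exact ⟨h, hh, rfl⟩
    refine ((hfin.union h1).union (br_length_finite x u.length)).subset ?_
    rintro v ⟨hv, hvx⟩
    rw [hout] at hv
    obtain ⟨k, h, hne, hhk, hreg, rfl⟩ := hv
    by_cases hl : (pk A τ h).2.length < u.length
    · exact Or.inr ⟨hvx, hl⟩
    left
    by_cases hle : h.length ≤ (T e n).length
    · right
      refine ⟨h, ?_, rfl⟩
      rcases le_total k n with h3 | h3
      · exact hhk.trans (hT3 e k n h3)
      · exact List.suffix_of_suffix_length_le hhk (hT3 e n k h3) hle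
    · left
      refine ⟨hvx, h, ⟨?_, by omega, hreg, br_comparable hu hvx (by omega)⟩, rfl⟩
      rcases le_total k n with h3 | h3
      · have := (hhk.trans (hT3 e k n h3)).length_le
        omega
      · exact List.suffix_of_suffix_length_le (hT3 e n k h3) hhk (by omega)
  -- the isolated limits in `A` are different along different branches
  have hdisj : ∀ e e', e ≠ e' → Disjoint (lim Φ e ∩ A) (lim Φ e' ∩ A) := by
    intro e e' hee
    rw [disjoint_left]
    rintro x ⟨⟨m, u, hu, hinf, hall⟩, hxA⟩ ⟨⟨m', u', hu', hinf', hall'⟩, -⟩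
    obtain ⟨j, hj⟩ := hjn ((m, u), (m', u'))
    obtain ⟨n, hn⟩ : ∃ n, hist e (n + 1) ≠ hist e' (n + 1) ∧ j ≤ n := by
      obtain ⟨n0, hn0⟩ := br_sep hee
      refine ⟨max n0 j, fun heq => ?_, le_max_right _ _⟩
      apply hn0 (max n0 j + 1) ((le_max_left _ _).trans (Nat.le_succ _))
      rw [heq]
      exact ⟨_, rfl⟩
    have hreq := hF2 n (hist e (n + 1)) (hist e' (n + 1)) j (hist_length _ _) (hist_length _ _)
      hn.2 hn.1
    rw [hj] at hreq
    rcases hreq with ⟨v, hv, v', hv', h1, h2, h3, h4⟩ | hd | hd | ⟨y, hy, hc⟩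
    · have h5 : v ∈ br x := hall v (by rw [hout]; exact ⟨n + 1, hv⟩) h1
      have h6 : v' ∈ br x := hall' v' (by rw [hout]; exact ⟨n + 1, hv'⟩) h2
      rcases le_total v.length v'.length with h7 | h7
      · exact h3 (br_comparable h5 h6 h7)
      · exact h4 (br_comparable h6 h5 h7)
    · obtain ⟨v, _, h, hl, _⟩ := (hlate e m x u (n + 1) hinf hu).nonempty
      exact hd h hl
    · obtain ⟨v, _, h, hl, _⟩ := (hlate e' m' x u' (n + 1) hinf' hu').nonempty
      exact hd h hl
    · have hxy : x ≠ y := fun h => hy (h ▸ hxA)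
      apply hlate e m x u (n + 1) hinf hu
      refine (br_inter_finite hxy).subset ?_
      rintro v ⟨hv, h, hl, rfl⟩
      exact ⟨hv, hc h hl⟩
  obtain ⟨e, he⟩ := hA Φ hdisj
  obtain ⟨z, hz⟩ := exists_play (T e) (m0, ∅) (hT2 e) (hT4 e)
  let V : ℕ → Set Pt := fun i => opn A (hist z (i + 1))
  have hne : ∀ n, hist z (n + 1) ≠ [] := fun n => by simp [hist]
  have hV := hτ2 V (fun n => ⟨isOpen_opn _ (hne n), opn_nonempty _ (hne n)⟩)
  have hVpk : ∀ n, τ (hist V (n + 1)) = pk A τ (hist z (n + 1)) := by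
    intro n
    simp only [V, opns_hist, pk]
  apply hV
  let _ := topA A
  rw [dense_iff_inter_open]
  intro O hO hOne
  by_contra hcon
  obtain ⟨p, hp⟩ := hOne
  obtain ⟨m, k, E, hpB, hBO⟩ := hO p hp
  have hmiss : ∀ v ∈ outc Φ e m, v.length < k ∨ ∃ x ∈ E, x ∈ A ∧ v ∈ br x := by
    intro v hv
    rw [hout] at hv
    obtain ⟨n, h, hne', hh, hreg, rfl⟩ := hv
    by_contra hc
    push Not at hc
    apply hcon
    have h1 : hist z h.length = h := by
      have h2 : h <:+ hist z (T e n).length := by rw [hz]; exact hh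
      have h3 : hist z h.length <:+ hist z (T e n).length := hist_suffix z hh.length_le
      have h4 := List.suffix_of_suffix_length_le h2 h3 (by rw [hist_length])
      exact (h4.eq_of_length (by rw [hist_length])).symm
    obtain ⟨l, hl⟩ : ∃ l, h.length = l + 1 := by
      cases h with
      | nil => exact absurd rfl hne'
      | cons a h => exact ⟨h.length, by simp⟩
    refine ⟨pk A τ h, hBO ⟨hreg.1, hreg.2, hc.1, fun x hx hxA => hc.2 x hx hxA⟩, l, ?_⟩
    show τ (hist V (l + 1)) = pk A τ h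
    rw [hVpk, ← hl, h1]
  have hunb : ∀ N, ∃ v ∈ outc Φ e m, N ≤ v.length := by
    intro N
    obtain ⟨n, hn1, hn2⟩ := hrn m N
    refine ⟨(pk A τ ((rn n, ∅) :: T e n)).2, ?_, ?_⟩
    · rw [hout]
      refine ⟨n + 1, (rn n, ∅) :: T e n, by simp, hT1 e n, ?_, rfl⟩
      have := pk_cons hτ (rn n, ∅) (T e n)
      rw [← hn2]
      exact this
    · have h1 := pk_length hτ ((rn n, ∅) :: T e n) (by simp)
      have h2 := hT4 e n
      simp only [List.length_cons] at h1
      omega
  -- one of the branches is met infinitely often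
  obtain ⟨x, hxE, hxA, hinf⟩ : ∃ x ∈ E, x ∈ A ∧ (outc Φ e m ∩ br x).Infinite := by
    by_contra hc
    push Not at hc
    have h1 : (⋃ x ∈ E.filter (· ∈ A), (outc Φ e m ∩ br x)).Finite := by
      refine Set.Finite.biUnion (Finset.finite_toSet _) fun x hx => ?_
      have hx' := Finset.mem_filter.mp (Finset.mem_coe.mp hx)
      exact hc x hx'.1 hx'.2
    obtain ⟨N, hN⟩ := (h1.image List.length).bddAbove
    obtain ⟨v, hv, hvl⟩ := hunb (max k (N + 1))
    rcases hmiss v hv with h2 | ⟨x, hx, hxA, hvx⟩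
    · have := le_max_left k (N + 1)
      omega
    · have h3 : v.length ≤ N := hN ⟨v, mem_iUnion₂.mpr ⟨x, Finset.mem_filter.mpr ⟨hx, hxA⟩,
        hv, hvx⟩, rfl⟩
      have := le_max_right k (N + 1)
      omega
  obtain ⟨n0, hn0⟩ := br_sep_finset (E.erase x) (Finset.notMem_erase x E)
  apply disjoint_left.mp he _ hxA
  refine ⟨m, hist x (max n0 k), ⟨_, rfl⟩, hinf, fun v hv huv => ?_⟩
  have h1 := huv.length_le
  rw [hist_length] at h1
  rcases hmiss v hv with h2 | ⟨y, hy, hyA, hvy⟩
  · have := le_max_right n0 k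
    omega
  · by_cases hyx : y = x
    · rw [← hyx]; exact hvy
    · exact absurd (br_suffix hvy huv)
        (hn0 _ (le_max_left _ _) y (Finset.mem_erase.mpr ⟨hyx, hy⟩))

theorem mk_code_le : Cardinal.mk Code ≤ Cardinal.continuum := by
  rw [Cardinal.mk_set, Cardinal.continuum]
  exact Cardinal.power_le_power_left two_ne_zero Cardinal.mk_le_aleph0

end Final

/-- In ZFC there is a nonempty countable Hausdorff space on which the open-point game is
undetermined. -/
theorem result : ∃ (X : Type) (_ : TopologicalSpace X), Nonempty X ∧ T2Space X ∧ Countable X ∧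
    Undetermined X := by
  obtain ⟨A, hA1, hA2⟩ := exists_set (I := Code) mk_code_le lim lim_countable
  exact ⟨Pt, topA A, ⟨(0, [])⟩, t2_topA A, inferInstance, not_open A hA1, not_point hA2⟩

end Pool.Agent.Results.MP_f38362_gt.OpenPointUndetermined
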